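import Pool.Agent.Y883.T3.Main3
import Pool.Agent.W93.GB4
import Pool.Agent.W93.GB1

/-!
# Goldbach representations of the multiples of `q`: the exceptional moduli up to `x ^ (2 / 3 - ρ)` and beyond

Apart from the multiples of the members of a very sparse set of integers larger than `(log x)^A`, every
modulus `q ≤ x ^ (2 / 3 - ρ)` satisfies the assertion of the problem (and the formula of Hardy and
Littlewood for almost all multiples), and at most `X ^ 2 x ^ (ρ - 1)` of the moduli `q ≤ X` violate it, for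
every `X ≤ x`.

Proof. Let `R` be a set of exceptional moduli between `Q` and `2 Q`, `Q ≤ x ^ (2 / 3 - ρ)`, and `P = x / Q`.
The number of representations of the multiples of `q` by primes, minus the contribution of a sieve model, is
large on average; so by duality (`T3.Lev`) one of the level sets `Z` of the exponential sum over the
primes minus the model, at the points `t / M`, contains `|Z|^2 / (log x)^c` pairs `t, t'` with
`|q (t - t') / M - a| ≤ (log x)^c / P`. The estimate of Vinogradov, in the form that the exponential sum is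
at most `x / K` outside the intervals around the fractions with denominators up to `K ^ 2 (log x)^c`
(`T3.Vin`, `T3.Lsh`, `T3.Mod`), shows that the members of `Z` are close to such fractions. If `Z` has less
than `P x ^ (- ε)` members this shows that `q` has a common divisor with the denominators of many of them
(`small_case`, `large_case`). If `Z` is larger we count the pairs which are close for two members `q, q'`
of `R` (`deep_case`): there are at most `|Z| (x ^ ε Q / P + (q, q'))` of them, and so many pairs of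
members of `R` have a large common divisor. The two ranges overlap since `Q ^ 3 ≤ x ^ (2 - 3 ρ)`. In every case many
members of `R` have a common divisor `d > (log x)^A'`; we remove these members and repeat the argument.
For `Q > x ^ (2 / 3 - ρ)` the theorem of the starting files on families of small additive energy is used.
-/

set_option autoImplicit false

namespace Pool.Agent.Results.MP_92f640_nt.ModuliUpToTwoThirds

open Pool.Agent.H560R3.GB (g HL)

/-- The even multiples `n` of `q` with `0 < n ≤ x` for which the formula of Hardy and Littlewood does not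
hold with a relative error of at most `ε`, or which are not sums of two distinct primes. -/
def exceptional (ε x : ℝ) (q : ℕ) : Set ℕ :=
  {n : ℕ | 0 < n ∧ (n : ℝ) ≤ x ∧ 2 ∣ n ∧ q ∣ n ∧
    ¬ (|(g n : ℝ) - HL n| ≤ ε * HL n ∧ ∃ p p' : ℕ, p.Prime ∧ p'.Prime ∧ p ≠ p' ∧ p + p' = n)}

/-- The even multiples `n` of `q` with `x / 2 < n ≤ x` and `g n < δ n / (log n)²`, as in the problem. -/
def few (δ x : ℝ) (q : ℕ) : Set ℕ :=
  {n : ℕ | x / 2 < n ∧ (n : ℝ) ≤ x ∧ 2 ∣ n ∧ q ∣ n ∧ (g n : ℝ) < δ * (n / Real.log n ^ 2)}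

/-- `q` is regular if (1) all but at most `x / (q (log x)^A)` of the even multiples `n ≤ x` of `q` are sums
of two distinct primes and satisfy `|g n - HL n| ≤ ε HL n`, and (2) all but at most `x / (8 q)` of the even
multiples `n` of `q` in `(x / 2, x]` satisfy `g n ≥ n / (2 (log n)²)`, which is the assertion of the
problem for `q`, with `δ = 1 / 2`. -/
def Regular (ε : ℝ) (A : ℕ) (x : ℝ) (q : ℕ) : Prop :=
  ((exceptional ε x q).Finite ∧ ((exceptional ε x q).ncard : ℝ) ≤ x / (q * Real.log x ^ A)) ∧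
  ((few (1 / 2) x q).Finite ∧ ((few (1 / 2) x q).ncard : ℝ) ≤ x / (8 * q))

theorem exceptional_eq (ε x : ℝ) (q : ℕ) (hx : 0 ≤ x) :
    exceptional ε x q = ((Pool.Agent.Y883.badm (Pool.Agent.W93.GB.Good ε) ⌊x⌋₊ q : Finset ℕ) : Set ℕ) := by
  classical
  ext n
  constructor
  · rintro ⟨h1, h2, h3, h4, h5⟩
    exact Finset.mem_coe.2 (Finset.mem_filter.2 ⟨Finset.mem_Icc.2 ⟨h1, Nat.le_floor h2⟩, h3, h4, h5⟩)
  · intro h
    obtain ⟨h1, h3, h4, h5⟩ := Finset.mem_filter.1 (Finset.mem_coe.1 h)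
    obtain ⟨h1, h2⟩ := Finset.mem_Icc.1 h1
    exact ⟨h1, (Nat.le_floor_iff hx).1 h2, h3, h4, h5⟩

theorem HL_nonneg (n : ℕ) : 0 ≤ HL n := by
  have h2 := Pool.Agent.W93.GB.one_le_sing n
  unfold Pool.Agent.H560R3.GB.HL
  positivity

/-- For all `ε, ρ > 0` and `A` and all sufficiently large real `x` there is a finite set `D` of integers,
all of them larger than `(log x)^A`, with at most `y ^ ρ` members up to `y` for every `y ≥ 1`, such that
all positive integers `q ≤ x ^ (2 / 3 - ρ)` that are not divisible by a member of `D` are regular, and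
for every `X` with `1 ≤ X ≤ x` at most `X ^ 2 x ^ (ρ - 1)` positive integers `q ≤ X` that are not
divisible by a member of `D` are not regular. -/
theorem result (ε ρ : ℝ) (hε : 0 < ε) (hρ : 0 < ρ) (A : ℕ) :
    ∃ x₀ : ℝ, ∀ x : ℝ, x₀ ≤ x → ∃ D : Finset ℕ,
      (∀ d ∈ D, Real.log x ^ A < (d : ℝ)) ∧
      (∀ y : ℝ, 1 ≤ y → ((D.filter (fun d : ℕ => (d : ℝ) ≤ y)).card : ℝ) ≤ y ^ ρ) ∧
      (∀ q : ℕ, 1 ≤ q → (q : ℝ) ≤ x ^ (2 / 3 - ρ) → (∀ d ∈ D, ¬ d ∣ q) → Regular ε A x q) ∧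
      ∀ X : ℝ, 1 ≤ X → X ≤ x →
        (({q : ℕ | 1 ≤ q ∧ (q : ℝ) ≤ X ∧ (∀ d ∈ D, ¬ d ∣ q) ∧ ¬ Regular ε A x q}.ncard : ℕ) : ℝ) ≤
          X ^ 2 * x ^ (ρ - 1) := by
  classical
  obtain ⟨ε', hε'⟩ : ∃ ε', ε' = min ε (1 / 2) := ⟨_, rfl⟩
  have hε0 : 0 < ε' := by rw [hε']; exact lt_min hε (by norm_num)
  obtain ⟨N₀, h0⟩ := Pool.Agent.Y883.T3.main3 ε' hε0 (ρ / 2) (by linarith) (A + 2)
  obtain ⟨x₁, hx₁⟩ : ∃ x₁ : ℝ, ∀ x : ℝ, x₁ ≤ x → 2 ^ (2 * A + 6) ≤ Real.log x := by
    have h := Real.tendsto_log_atTop.eventually_ge_atTop (2 ^ (2 * A + 6) : ℝ)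
    exact Filter.eventually_atTop.1 h
  obtain ⟨x₂, hx₂⟩ : ∃ x₂ : ℝ, ∀ x : ℝ, x₂ ≤ x → 2 ≤ x ^ (ρ / 2) := by
    have h := (tendsto_rpow_atTop (show (0 : ℝ) < ρ / 2 by linarith)).eventually_ge_atTop (2 : ℝ)
    exact Filter.eventually_atTop.1 h
  refine ⟨max (max ((N₀ : ℝ) + 4) x₁) x₂, fun x hx => ?_⟩
  have hxN : (N₀ : ℝ) + 4 ≤ x := (le_max_left _ _).trans ((le_max_left _ _).trans hx)
  have hlx := hx₁ x ((le_max_right _ _).trans ((le_max_left _ _).trans hx))
  have hx2 := hx₂ x ((le_max_right _ _).trans hx)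
  have hN₀ : (0 : ℝ) ≤ N₀ := Nat.cast_nonneg _
  have hx4 : 4 ≤ x := by linarith
  have hx0 : 0 < x := by linarith
  obtain ⟨N, hN⟩ : ∃ N, N = ⌊x⌋₊ := ⟨_, rfl⟩
  have hNx : (N : ℝ) ≤ x := by rw [hN]; exact Nat.floor_le hx0.le
  have hxN1 : x < N + 1 := by rw [hN]; exact Nat.lt_floor_add_one x
  have hN0 : (0 : ℝ) < N := by linarith
  have hNN₀ : N₀ ≤ N := by
    rw [hN]
    exact Nat.le_floor (by linarith)
  obtain ⟨l, hl⟩ : ∃ l, l = Real.log x := ⟨_, rfl⟩
  obtain ⟨L, hL⟩ : ∃ L, L = Real.log N := ⟨_, rfl⟩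
  have h64 : (64 : ℝ) ≤ 2 ^ (2 * A + 6) := by
    calc (64 : ℝ) = 2 ^ 6 := by norm_num
      _ ≤ 2 ^ (2 * A + 6) := pow_le_pow_right₀ (by norm_num) (by omega)
  rw [← hl] at hlx
  have hl64 : 64 ≤ l := by linarith
  have hLl : L ≤ l := by rw [hL, hl]; exact Real.log_le_log hN0 hNx
  have hlL : l / 2 ≤ L := by
    have h1 : x / 2 ≤ N := by linarith
    have h2 : Real.log (x / 2) ≤ L := by rw [hL]; exact Real.log_le_log (by linarith) h1
    rw [Real.log_div hx0.ne' (by norm_num), ← hl] at h2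
    have h3 := Real.log_two_lt_d9
    linarith
  have hL0 : 0 < L := by linarith
  have hl0 : 0 < l := by linarith
  have hpow : 8 * l ^ A ≤ L ^ (A + 2) := by
    have h1 : (l / 2) ^ (A + 2) ≤ L ^ (A + 2) := pow_le_pow_left₀ (by linarith) hlL _
    refine le_trans ?_ h1
    rw [div_pow, le_div_iff₀ (by positivity), pow_add l A 2]
    have h2 : (8 : ℝ) * 2 ^ (A + 2) ≤ l ^ 2 := by
      calc (8 : ℝ) * 2 ^ (A + 2) = 2 ^ (A + 5) := by rw [show A + 5 = 3 + (A + 2) by ring, pow_add 2 3]; norm_num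
        _ ≤ 2 ^ (2 * A + 6) := pow_le_pow_right₀ (by norm_num) (by omega)
        _ ≤ l := hlx
        _ ≤ l ^ 2 := by nlinarith
    calc 8 * l ^ A * 2 ^ (A + 2) = l ^ A * (8 * 2 ^ (A + 2)) := by ring
      _ ≤ l ^ A * l ^ 2 := mul_le_mul_of_nonneg_left h2 (by positivity)
  obtain ⟨D, hD1, hD2, hD4, hD3⟩ := h0 N hNN₀
  rw [← hL] at hD1 hD3
  simp only [← hL] at hD4
  -- a modulus with few exceptional multiples is regular
  have hreg : ∀ q : ℕ, 1 ≤ q → ((Pool.Agent.Y883.badm (Pool.Agent.W93.GB.Good ε') N q).card : ℝ) ≤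
      (N : ℝ) / (q * L ^ (A + 2)) → Regular ε A x q := by
    intro q hq hcon
    have hq0 : (0 : ℝ) < q := by exact_mod_cast hq
    have hb8 : ((Pool.Agent.Y883.badm (Pool.Agent.W93.GB.Good ε') N q).card : ℝ) ≤ x / (8 * (q * l ^ A)) := by
      refine hcon.trans ?_
      rw [div_le_div_iff₀ (by positivity) (by positivity)]
      calc (N : ℝ) * (8 * (q * l ^ A)) ≤ x * (8 * (q * l ^ A)) :=
            mul_le_mul_of_nonneg_right hNx (by positivity)
        _ = (x * q) * (8 * l ^ A) := by ring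
        _ ≤ (x * q) * L ^ (A + 2) := mul_le_mul_of_nonneg_left hpow (by positivity)
        _ = x * (q * L ^ (A + 2)) := by ring
    have hlA : 1 ≤ l ^ A := one_le_pow₀ (by linarith)
    have hset : exceptional ε' x q = ((Pool.Agent.Y883.badm (Pool.Agent.W93.GB.Good ε') N q : Finset ℕ) : Set ℕ) := by
      rw [hN]; exact exceptional_eq ε' x q hx0.le
    have hsub1 : exceptional ε x q ⊆ exceptional ε' x q := by
      rintro n ⟨a1, a2, a3, a4, a5⟩
      refine ⟨a1, a2, a3, a4, ?_⟩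
      rintro ⟨b1, b2⟩
      apply a5
      refine ⟨b1.trans ?_, b2⟩
      apply mul_le_mul_of_nonneg_right _ (HL_nonneg n)
      rw [hε']; exact min_le_left _ _
    have hsub2 : few (1 / 2) x q ⊆ exceptional ε' x q := by
      rintro n ⟨a1, a2, a3, a4, a5⟩
      have hn0 : (0 : ℝ) < n := by linarith
      refine ⟨by exact_mod_cast hn0, a2, a3, a4, ?_⟩
      rintro ⟨b1, _⟩
      have h1 : (n : ℝ) / Real.log n ^ 2 ≤ HL n := by
        have h2 := Pool.Agent.W93.GB.one_le_sing n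
        have h3 : (0 : ℝ) ≤ (n : ℝ) / Real.log n ^ 2 := by positivity
        unfold Pool.Agent.H560R3.GB.HL
        nlinarith
      have h3 : (0 : ℝ) ≤ (n : ℝ) / Real.log n ^ 2 := by positivity
      have h2 : ε' ≤ 1 / 2 := by rw [hε']; exact min_le_right _ _
      have h4 := (abs_le.1 b1).1
      nlinarith
    have hfin : (exceptional ε' x q).Finite := by rw [hset]; exact Finset.finite_toSet _
    have hcard : ((exceptional ε' x q).ncard : ℝ) ≤ x / (8 * (q * l ^ A)) := by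
      rw [hset, Set.ncard_coe_finset]
      exact hb8
    refine ⟨⟨hfin.subset hsub1, ?_⟩, ⟨hfin.subset hsub2, ?_⟩⟩
    · have h1 : ((exceptional ε x q).ncard : ℝ) ≤ (exceptional ε' x q).ncard := by
        exact_mod_cast Set.ncard_le_ncard hsub1 hfin
      rw [← hl]
      refine h1.trans (hcard.trans ?_)
      apply div_le_div_of_nonneg_left hx0.le (by positivity)
      have : 0 ≤ (q : ℝ) * l ^ A := by positivity
      linarith
    · have h1 : ((few (1 / 2) x q).ncard : ℝ) ≤ (exceptional ε' x q).ncard := by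
        exact_mod_cast Set.ncard_le_ncard hsub2 hfin
      refine h1.trans (hcard.trans ?_)
      apply div_le_div_of_nonneg_left hx0.le (by positivity)
      have : (q : ℝ) ≤ q * l ^ A := le_mul_of_one_le_right hq0.le hlA
      linarith
  -- the comparison of the ranges
  have hrange : x ^ (2 / 3 - ρ) ≤ (N : ℝ) ^ (2 / 3 - ρ / 2) := by
    have hN1r : (1 : ℝ) ≤ N := by linarith
    have e1 : x ^ (2 / 3 - ρ / 2) ≤ 2 * (N : ℝ) ^ (2 / 3 - ρ / 2) := by
      rcases le_or_gt 0 (2 / 3 - ρ / 2) with hc | hc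
      · have e2 : x ^ (2 / 3 - ρ / 2) ≤ (2 * N : ℝ) ^ (2 / 3 - ρ / 2) :=
          Real.rpow_le_rpow hx0.le (by linarith) hc
        rw [Real.mul_rpow (by norm_num) hN0.le] at e2
        refine e2.trans (mul_le_mul_of_nonneg_right ?_ (by positivity))
        calc (2 : ℝ) ^ (2 / 3 - ρ / 2) ≤ 2 ^ (1 : ℝ) :=
              Real.rpow_le_rpow_of_exponent_le (by norm_num) (by linarith)
          _ = 2 := Real.rpow_one 2
      · have e2 : x ^ (2 / 3 - ρ / 2) ≤ (N : ℝ) ^ (2 / 3 - ρ / 2) :=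
          Real.rpow_le_rpow_of_nonpos hN0 hNx hc.le
        have e3 : 0 < (N : ℝ) ^ (2 / 3 - ρ / 2) := by positivity
        linarith
    have e2 : x ^ (2 / 3 - ρ / 2) = x ^ (2 / 3 - ρ) * x ^ (ρ / 2) := by
      rw [← Real.rpow_add hx0]; congr 1; ring
    rw [e2] at e1
    have e3 : x ^ (2 / 3 - ρ) * 2 ≤ x ^ (2 / 3 - ρ) * x ^ (ρ / 2) :=
      mul_le_mul_of_nonneg_left hx2 (by positivity)
    linarith
  refine ⟨D, ?_, ?_, ?_, ?_⟩
  · intro d hd
    have h1 := hD1 d hd
    have h2 : 0 ≤ l ^ A := by positivity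
    rw [← hl]
    linarith
  · intro y hy
    refine (hD2 y hy).trans ?_
    exact Real.rpow_le_rpow_of_exponent_le hy (by linarith)
  · intro q hq hqx hqD
    exact hreg q hq (hD4 q hq (hqx.trans hrange) hqD)
  · intro X hX1 hXx
    have hX0 : 0 < X := by linarith
    obtain ⟨F, hF⟩ : ∃ F : Finset ℕ, F = (Finset.Icc 1 ⌊X⌋₊).filter (fun q => (∀ d ∈ D, ¬ d ∣ q) ∧
        (N : ℝ) / (q * L ^ (A + 2)) < (Pool.Agent.Y883.badm (Pool.Agent.W93.GB.Good ε') N q).card) := ⟨_, rfl⟩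
    have hsub : {q : ℕ | 1 ≤ q ∧ (q : ℝ) ≤ X ∧ (∀ d ∈ D, ¬ d ∣ q) ∧ ¬ Regular ε A x q} ⊆ (F : Set ℕ) := by
      rintro q ⟨hq, hqX, hqD, hqR⟩
      rw [Finset.mem_coe, hF, Finset.mem_filter, Finset.mem_Icc]
      refine ⟨⟨hq, Nat.le_floor hqX⟩, hqD, ?_⟩
      by_contra hcon
      rw [not_lt] at hcon
      exact hqR (hreg q hq hcon)
    have h1 : (({q : ℕ | 1 ≤ q ∧ (q : ℝ) ≤ X ∧ (∀ d ∈ D, ¬ d ∣ q) ∧ ¬ Regular ε A x q}.ncard : ℕ) : ℝ) ≤ F.card := by
      have h2 := Set.ncard_le_ncard hsub (Finset.finite_toSet F)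
      rw [Set.ncard_coe_finset] at h2
      exact_mod_cast h2
    have hfl : ⌊X⌋₊ ≤ N := by rw [hN]; exact Nat.floor_le_floor hXx
    have h2 := hD3 ⌊X⌋₊ hfl
    rw [← hF] at h2
    have h3 : ((⌊X⌋₊ : ℕ) : ℝ) ≤ X := Nat.floor_le hX0.le
    have h4 : (F.card : ℝ) * N ≤ X ^ 2 * x ^ (ρ / 2) := by
      refine h2.trans ?_
      apply mul_le_mul (pow_le_pow_left₀ (Nat.cast_nonneg _) h3 2) _ (by positivity) (by positivity)
      exact Real.rpow_le_rpow hN0.le hNx (by linarith)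
    have h5 : (F.card : ℝ) * x ≤ (X ^ 2 * x ^ (ρ - 1)) * x := by
      calc (F.card : ℝ) * x ≤ F.card * (2 * N) := mul_le_mul_of_nonneg_left (by linarith) (Nat.cast_nonneg _)
        _ = 2 * (F.card * N) := by ring
        _ ≤ 2 * (X ^ 2 * x ^ (ρ / 2)) := mul_le_mul_of_nonneg_left h4 (by norm_num)
        _ ≤ x ^ (ρ / 2) * (X ^ 2 * x ^ (ρ / 2)) := mul_le_mul_of_nonneg_right hx2 (by positivity)
        _ = X ^ 2 * (x ^ (ρ / 2) * x ^ (ρ / 2)) := by ring
        _ = X ^ 2 * x ^ ρ := by rw [← Real.rpow_add hx0]; congr 2; ring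
        _ = X ^ 2 * (x ^ (ρ - 1) * x ^ (1 : ℝ)) := by rw [← Real.rpow_add hx0]; congr 2; ring
        _ = (X ^ 2 * x ^ (ρ - 1)) * x := by rw [Real.rpow_one]; ring
    exact h1.trans (le_of_mul_le_mul_right h5 hx0)

end Pool.Agent.Results.MP_92f640_nt.ModuliUpToTwoThirds
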