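import Pool.Agent.Y820.LF.Fin
import Pool.Agent.TH894.SM0

/-!
# Goldbach numbers on the multiples of `q`, shifted by a sum of boundedly many powers of `b`, for all `q ≤ x / 4`

For every `x` and every `q ≤ x / 4` the assertion of the problem (even with the asymptotic formula of Hardy and
Littlewood and with a smaller allowance for exceptions, so without exceptions near the end of the range of `q`) holds
for the even multiples of `q` in `(x / 2, x]`, shifted by a suitable sum `d ≤ θ x` of at most `K` different powers of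
`b`; one can even take the same `d` for almost all `q` in an arbitrary finite set of moduli (and for all `q` in it, if
this set has a bounded number of elements).

Definitions used from `Pool.Agent.H560R3.GB` (starting files): `C₂`: the twin prime constant
`∏_{p > 2} (1 - 1 / (p - 1) ^ 2)`; `sing n`: the singular series `2 C₂ ∏_{p ∣ n, p > 2} (p - 1) / (p - 2)`; `g n`: the
number of ordered representations of `n` as a sum of two primes; `HL n = sing n * n / log ^ 2 n`.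

Libraries: W93, TH892, TH894, H373R2, H560R3 (starting files), Y820 (helper820; tasks by helper692, helper71,
helper514, helper515, helper484).
-/

set_option autoImplicit false

namespace Pool.Agent.Results.MP_92f640_nt.MultiplesPlusPowers

open Finset Filter Pool.Agent.H560R3.GB

/-- (1) the number of representations of `n` as a sum of two primes agrees with the prediction of Hardy
and Littlewood up to a relative error of at most `ε`; (2) it lies between `(1 - ε) C₂` and `1 + ε` times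
`n² / (φ(n) log² n)`. -/
def Holds (ε : ℝ) (n : ℕ) : Prop :=
  |(g n : ℝ) - HL n| ≤ ε * HL n ∧
  (1 - ε) * C₂ * ((n : ℝ) ^ 2 / (n.totient * Real.log n ^ 2)) ≤ g n ∧
  (g n : ℝ) ≤ (1 + ε) * ((n : ℝ) ^ 2 / (n.totient * Real.log n ^ 2))

lemma C₂_nonneg : 0 ≤ C₂ := by
  unfold C₂
  apply Real.iInf_nonneg
  intro z
  apply prod_nonneg
  intro p hp
  rw [mem_filter, mem_Icc] at hp
  exact (Pool.Agent.TH894.SM.fac_pos p hp.1.1).le

lemma holds_of (ε : ℝ) (hε : 0 < ε) (n : ℕ) (hn : 2 ≤ n) (h2 : 2 ∣ n) (h1 : |(g n : ℝ) - HL n| ≤ ε * HL n) : Holds ε n := by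
  have hn0 : n ≠ 0 := by omega
  have hnr : (0 : ℝ) < n := by exact_mod_cast Nat.pos_of_ne_zero hn0
  have hl : 0 < Real.log n := Real.log_pos (by exact_mod_cast (by omega : 1 < n))
  have ht : (0 : ℝ) < n.totient := by exact_mod_cast Nat.totient_pos.2 (Nat.pos_of_ne_zero hn0)
  obtain ⟨s1, s2⟩ := Pool.Agent.TH894.SM.sing_tot n hn0 h2
  have hC := C₂_nonneg
  obtain ⟨Q, hQ⟩ : ∃ Q : ℝ, Q = n / Real.log n ^ 2 := ⟨_, rfl⟩
  have hQ0 : 0 < Q := by rw [hQ]; positivity
  have e : (n : ℝ) ^ 2 / (n.totient * Real.log n ^ 2) = n / n.totient * Q := by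
    rw [hQ]
    field_simp
  have hHL : HL n = sing n * Q := by
    unfold HL
    rw [hQ]
  have hR0 : 0 < (n : ℝ) / n.totient := by positivity
  refine ⟨h1, ?_, ?_⟩
  · rw [e]
    rw [hHL, abs_le] at h1
    rcases le_or_gt ε 1 with hε1 | hε1
    · have h3 : (1 - ε) * (C₂ * (n / n.totient) * Q) ≤ (1 - ε) * (sing n * Q) := by
        apply mul_le_mul_of_nonneg_left _ (by linarith)
        exact mul_le_mul_of_nonneg_right s1 hQ0.le
      have e2 : (1 - ε) * C₂ * (n / n.totient * Q) = (1 - ε) * (C₂ * (n / n.totient) * Q) := by ring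
      rw [e2]
      linarith [h1.1]
    · have h3 : (1 - ε) * C₂ * (n / n.totient * Q) ≤ 0 := by
        apply mul_nonpos_of_nonpos_of_nonneg _ (by positivity)
        exact mul_nonpos_of_nonpos_of_nonneg (by linarith) hC
      exact h3.trans (Nat.cast_nonneg _)
  · rw [e]
    rw [hHL, abs_le] at h1
    have h3 : (1 + ε) * (sing n * Q) ≤ (1 + ε) * (n / n.totient * Q) := by
      apply mul_le_mul_of_nonneg_left _ (by linarith)
      exact mul_le_mul_of_nonneg_right s2 hQ0.le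
    linarith [h1.2]

/-- the coefficients and the constants of the forms `p`, `a - p` -/
lemma nu_eq (a p : ℕ) (hp : p.Prime) :
    Pool.Agent.Y820.LF.nuF (Pool.Agent.Y820.LF.C1 (fun _ : Fin 1 => (-1 : ℤ))) (Pool.Agent.Y820.LF.H1 (fun _ : Fin 1 => (a : ℤ))) p =
      if p ∣ a then 1 else 2 := by
  rw [Pool.Agent.Y820.LF.nuF_C1]
  have hp0 := hp.pos
  have h1 : (range p).filter (fun r : ℕ => (p : ℤ) ∣ (r : ℤ) ∨ ∃ _ : Fin 1, (p : ℤ) ∣ -1 * (r : ℤ) + (a : ℤ)) = {0, a % p} := by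
    ext r
    rw [mem_filter, mem_range, mem_insert, mem_singleton]
    constructor
    · rintro ⟨hr, h | ⟨_, h⟩⟩
      · left
        rw [Int.natCast_dvd_natCast] at h
        exact Nat.eq_zero_of_dvd_of_lt h hr
      · right
        have h3 : a ≡ r [MOD p] := by
          apply (Nat.modEq_iff_dvd).2
          have e : (r : ℤ) - (a : ℤ) = -(-1 * (r : ℤ) + (a : ℤ)) := by ring
          rw [e]
          exact (dvd_neg).2 h
        unfold Nat.ModEq at h3
        rw [h3, Nat.mod_eq_of_lt hr]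
    · rintro (h | h)
      · subst h
        exact ⟨hp0, Or.inl (by simp)⟩
      · refine ⟨by rw [h]; exact Nat.mod_lt _ hp0, Or.inr ⟨0, ?_⟩⟩
        have h2 : r ≡ a [MOD p] := by
          rw [h]
          exact Nat.mod_modEq _ _
        have h3 := (Nat.modEq_iff_dvd).1 h2
        have e : -1 * (r : ℤ) + (a : ℤ) = (a : ℤ) - (r : ℤ) := by ring
        rw [e]
        exact h3
  rw [h1]
  by_cases h2 : p ∣ a
  · rw [if_pos h2, Nat.mod_eq_zero_of_dvd h2]
    simp
  · rw [if_neg h2]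
    apply card_pair
    intro h3
    exact h2 (Nat.dvd_of_mod_eq_zero h3.symm)

lemma adm_iff (a : ℕ) :
    Pool.Agent.Y820.LF.AdmF (Pool.Agent.Y820.LF.C1 (fun _ : Fin 1 => (-1 : ℤ))) (Pool.Agent.Y820.LF.H1 (fun _ : Fin 1 => (a : ℤ))) ↔ 2 ∣ a := by
  unfold Pool.Agent.Y820.LF.AdmF
  constructor
  · intro h
    have h1 := h 2 Nat.prime_two
    rw [nu_eq a 2 Nat.prime_two] at h1
    by_contra hcon
    rw [if_neg hcon] at h1
    omega
  · intro h p hp
    rw [nu_eq a p hp]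
    split_ifs with h1
    · exact hp.one_lt
    · have h2 := hp.two_le
      have h3 : p ≠ 2 := fun h4 => h1 (by rw [h4]; exact h)
      omega

/-- the limit of the singular series -/
lemma sing_lim (a : ℕ) (ha : a ≠ 0) (h2 : 2 ∣ a) :
    Tendsto (Pool.Agent.Y820.LF.singF (Pool.Agent.Y820.LF.C1 (fun _ : Fin 1 => (-1 : ℤ))) (Pool.Agent.Y820.LF.H1 (fun _ : Fin 1 => (a : ℤ)))) atTop (nhds (sing a)) := by
  have hfac : ∀ p : ℕ, 3 ≤ p → 0 < 1 - 1 / ((p : ℝ) - 1) ^ 2 := fun p hp => Pool.Agent.TH894.SM.fac_pos p hp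
  have hanti : Antitone (fun z : ℕ => ∏ p ∈ (Icc 3 z).filter Nat.Prime, (1 - 1 / ((p : ℝ) - 1) ^ 2)) := by
    intro z z' hzz
    have hsub : (Icc 3 z).filter Nat.Prime ⊆ (Icc 3 z').filter Nat.Prime := filter_subset_filter _ (Icc_subset_Icc le_rfl hzz)
    simp only
    rw [← prod_sdiff hsub]
    have h3 : ∏ p ∈ (Icc 3 z').filter Nat.Prime \ (Icc 3 z).filter Nat.Prime, (1 - 1 / ((p : ℝ) - 1) ^ 2) ≤ 1 := by
      apply prod_le_one
      · intro p hp
        exact (hfac p (mem_Icc.1 (mem_filter.1 (mem_sdiff.1 hp).1).1).1).le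
      · intro p _
        have : 0 ≤ 1 / ((p : ℝ) - 1) ^ 2 := by positivity
        linarith
    have h4 : 0 ≤ ∏ p ∈ (Icc 3 z).filter Nat.Prime, (1 - 1 / ((p : ℝ) - 1) ^ 2) :=
      prod_nonneg fun p hp => (hfac p (mem_Icc.1 (mem_filter.1 hp).1).1).le
    calc _ ≤ 1 * ∏ p ∈ (Icc 3 z).filter Nat.Prime, (1 - 1 / ((p : ℝ) - 1) ^ 2) := mul_le_mul_of_nonneg_right h3 h4
      _ = _ := one_mul _
  have hbdd : BddBelow (Set.range (fun z : ℕ => ∏ p ∈ (Icc 3 z).filter Nat.Prime, (1 - 1 / ((p : ℝ) - 1) ^ 2))) := by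
    refine ⟨0, ?_⟩
    rintro _ ⟨z, rfl⟩
    exact prod_nonneg fun p hp => (hfac p (mem_Icc.1 (mem_filter.1 hp).1).1).le
  have hlim := (tendsto_atTop_ciInf hanti hbdd).const_mul 2
  have hlim2 := hlim.mul_const (∏ p ∈ a.primeFactors.filter (fun p => 2 < p), ((p : ℝ) - 1) / ((p : ℝ) - 2))
  refine Tendsto.congr' ?_ hlim2
  filter_upwards [eventually_ge_atTop (a + 2)] with z hz
  unfold Pool.Agent.Y820.LF.singF
  have hset : (Icc 1 z).filter Nat.Prime = insert 2 ((Icc 3 z).filter Nat.Prime) := by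
    ext p
    rw [mem_filter, mem_insert, mem_filter, mem_Icc, mem_Icc]
    constructor
    · rintro ⟨h3, h4⟩
      have := h4.two_le
      rcases this.eq_or_lt with h5 | h5
      · exact Or.inl h5.symm
      · exact Or.inr ⟨⟨h5, h3.2⟩, h4⟩
    · rintro (h3 | h3)
      · rw [h3]
        exact ⟨⟨by omega, by omega⟩, Nat.prime_two⟩
      · exact ⟨⟨by omega, h3.1.2⟩, h3.2⟩
  rw [hset, prod_insert (by simp), nu_eq a 2 Nat.prime_two, if_pos h2]
  have h3 : ∏ p ∈ (Icc 3 z).filter Nat.Prime, (1 - ((Pool.Agent.Y820.LF.nuF (Pool.Agent.Y820.LF.C1 (fun _ : Fin 1 => (-1 : ℤ))) (Pool.Agent.Y820.LF.H1 (fun _ : Fin 1 => (a : ℤ))) p : ℕ) : ℝ) / p) / (1 - 1 / (p : ℝ)) ^ (1 + 1) =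
      (∏ p ∈ (Icc 3 z).filter Nat.Prime, (1 - 1 / ((p : ℝ) - 1) ^ 2)) * ∏ p ∈ (Icc 3 z).filter Nat.Prime, (if p ∣ a then ((p : ℝ) - 1) / ((p : ℝ) - 2) else 1) := by
    rw [← prod_mul_distrib]
    apply prod_congr rfl
    intro p hp
    rw [mem_filter, mem_Icc] at hp
    have hp3 : (3 : ℝ) ≤ p := by exact_mod_cast hp.1.1
    have e1 : (p : ℝ) - 1 ≠ 0 := by linarith
    have e2 : (p : ℝ) - 2 ≠ 0 := by linarith
    have e3 : (p : ℝ) ≠ 0 := by linarith
    have e4 : 1 - 1 / (p : ℝ) ≠ 0 := by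
      have : 1 - 1 / (p : ℝ) = (p - 1) / p := by field_simp
      rw [this]
      exact div_ne_zero e1 e3
    rw [nu_eq a p hp.2]
    split_ifs with h4
    · rw [Nat.cast_one]
      have e5 : (1 : ℝ) - 1 / ((p : ℝ) - 1) ^ 2 = p * (p - 2) / (p - 1) ^ 2 := by
        field_simp
        ring
      rw [e5, show (1 : ℝ) - 1 / (p : ℝ) = (p - 1) / p by field_simp]
      have e6 : ((p : ℝ) - 1) / p / (((p : ℝ) - 1) / p) ^ (1 + 1) = p / (p - 1) := by
        rw [div_pow, div_div_div_eq, div_eq_div_iff (mul_ne_zero e3 (pow_ne_zero _ e1)) e1]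
        ring
      have e7 : (p : ℝ) * (p - 2) / (p - 1) ^ 2 * ((p - 1) / (p - 2)) = p / (p - 1) := by
        rw [div_mul_div_comm, div_eq_div_iff (mul_ne_zero (pow_ne_zero _ e1) e2) e1]
        ring
      rw [e6, e7]
    · have e5 : (1 : ℝ) - 1 / ((p : ℝ) - 1) ^ 2 = p * (p - 2) / (p - 1) ^ 2 := by
        field_simp
        ring
      rw [e5, show (1 : ℝ) - 1 / (p : ℝ) = (p - 1) / p by field_simp]
      push_cast
      field_simp
  rw [h3]
  have h4 : ∏ p ∈ (Icc 3 z).filter Nat.Prime, (if p ∣ a then ((p : ℝ) - 1) / ((p : ℝ) - 2) else 1) =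
      ∏ p ∈ a.primeFactors.filter (fun p => 2 < p), ((p : ℝ) - 1) / ((p : ℝ) - 2) := by
    rw [← prod_filter]
    apply prod_congr _ (fun _ _ => rfl)
    ext p
    rw [mem_filter, mem_filter, mem_Icc, mem_filter, Nat.mem_primeFactors]
    constructor
    · rintro ⟨⟨h5, h6⟩, h7⟩
      exact ⟨⟨h6, h7, ha⟩, by omega⟩
    · rintro ⟨⟨h5, h6, _⟩, h7⟩
      have := Nat.le_of_dvd (Nat.pos_of_ne_zero ha) h6
      exact ⟨⟨⟨by omega, by omega⟩, h5⟩, h6⟩
  rw [h4]
  push_cast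
  norm_num
  ring

/-- the count -/
lemma count_eq (a : ℕ) (ha : 1 ≤ a) :
    Pool.Agent.Y820.LF.cntF (Pool.Agent.Y820.LF.C1 (fun _ : Fin 1 => (-1 : ℤ))) (Pool.Agent.Y820.LF.H1 (fun _ : Fin 1 => (a : ℤ))) (a - 1) = g a := by
  rw [Pool.Agent.Y820.LF.cntF_C1]
  unfold g
  apply card_bij (fun n _ => (n, a - n))
  · intro n hn
    rw [mem_filter, mem_Icc] at hn
    rw [mem_filter, Finset.HasAntidiagonal.mem_antidiagonal]
    have h1 := hn.2.2 0
    have e : (-1 * (n : ℤ) + (a : ℤ)).toNat = a - n := by omega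
    rw [e] at h1
    exact ⟨by omega, hn.2.1, h1⟩
  · intro n _ m _ h
    exact (Prod.mk.injEq _ _ _ _ ▸ h).1
  · intro q hq
    rw [mem_filter, Finset.HasAntidiagonal.mem_antidiagonal] at hq
    have h1 := hq.2.1.two_le
    have h2 := hq.2.2.two_le
    refine ⟨q.1, ?_, ?_⟩
    · rw [mem_filter, mem_Icc]
      refine ⟨⟨by omega, by omega⟩, hq.2.1, fun _ => ?_⟩
      have e : (-1 * (q.1 : ℤ) + (a : ℤ)).toNat = q.2 := by omega
      rw [e]
      exact hq.2.2
    · ext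
      · rfl
      · simp only
        omega

/-- the weights at neighbouring integers -/
lemma shift_one (ε : ℝ) (hε : 0 < ε) : ∃ n0 : ℕ, 3 ≤ n0 ∧ ∀ n : ℕ, n0 ≤ n → ∀ c G : ℝ, 0 < G →
    |c - G * (((n - 1 : ℕ) : ℝ) / Real.log ((n - 1 : ℕ) : ℝ) ^ 2)| ≤ min ε 1 / 4 * (G * (((n - 1 : ℕ) : ℝ) / Real.log ((n - 1 : ℕ) : ℝ) ^ 2)) →
    |c - G * ((n : ℝ) / Real.log n ^ 2)| ≤ ε * (G * ((n : ℝ) / Real.log n ^ 2)) := by
  obtain ⟨n1, hn1⟩ : ∃ n1 : ℕ, 16 / min ε 1 ≤ n1 := ⟨_, Nat.le_ceil _⟩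
  refine ⟨n1 + 5, by omega, fun n hn c G hG hc => ?_⟩
  have he0 : 0 < min ε 1 := lt_min hε one_pos
  have he1 : min ε 1 ≤ ε := min_le_left _ _
  have he2 : min ε 1 ≤ 1 := min_le_right _ _
  obtain ⟨e, hed⟩ : ∃ e, e = min ε 1 := ⟨_, rfl⟩
  rw [← hed] at he0 he1 he2 hc hn1
  obtain ⟨M, hM⟩ : ∃ M : ℝ, M = ((n - 1 : ℕ) : ℝ) := ⟨_, rfl⟩
  have hMn : (n : ℝ) = M + 1 := by
    rw [hM]
    have : n = (n - 1) + 1 := by omega
    exact_mod_cast this
  rw [← hM] at hc
  have hM4 : (4 : ℝ) ≤ M := by rw [hM]; exact_mod_cast (by omega : 4 ≤ n - 1)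
  have hMn1 : 16 / e ≤ M := by
    refine hn1.trans ?_
    rw [hM]
    exact_mod_cast (by omega : n1 ≤ n - 1)
  have hM0 : 0 < M := by linarith
  have hMe : 16 ≤ e * M := by
    rw [div_le_iff₀ he0] at hMn1
    linarith
  have hlM : 1 ≤ Real.log M := by
    rw [Real.le_log_iff_exp_le hM0]
    have := Real.exp_one_lt_d9
    linarith
  have hlog1 : Real.log M ≤ Real.log (M + 1) := Real.log_le_log hM0 (by linarith)
  have hlog2 : Real.log (M + 1) ≤ Real.log M + 1 / M := by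
    have h1 : Real.log (M + 1) = Real.log M + Real.log (1 + 1 / M) := by
      rw [← Real.log_mul hM0.ne' (by positivity)]
      congr 1
      field_simp
    have h2 : Real.log (1 + 1 / M) ≤ 1 + 1 / M - 1 := Real.log_le_sub_one_of_pos (by positivity)
    linarith
  rw [hMn]
  obtain ⟨l, hl⟩ : ∃ l, l = Real.log M := ⟨_, rfl⟩
  obtain ⟨l', hl'⟩ : ∃ l', l' = Real.log (M + 1) := ⟨_, rfl⟩
  rw [← hl] at hc hlM hlog1 hlog2
  rw [← hl'] at hlog1 hlog2 ⊢
  have hl0 : 0 < l := by linarith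
  have hl'0 : 0 < l' := by linarith
  -- the quotient of the two weights
  obtain ⟨f, hf⟩ : ∃ f, f = M / l ^ 2 := ⟨_, rfl⟩
  obtain ⟨f', hf'⟩ : ∃ f', f' = (M + 1) / l' ^ 2 := ⟨_, rfl⟩
  have hf0 : 0 < f := by rw [hf]; positivity
  have hf'0 : 0 < f' := by rw [hf']; positivity
  have hup : f ≤ (1 + 3 / M) * f' := by
    rw [hf, hf', div_le_iff₀ (by positivity)]
    have h1 : l' ≤ l * (1 + 1 / M) := by
      have : 1 / M ≤ l * (1 / M) := le_mul_of_one_le_left (by positivity) hlM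
      linarith
    have h2 : l' ^ 2 ≤ (l * (1 + 1 / M)) ^ 2 := pow_le_pow_left₀ hl'0.le h1 2
    have h3 : (1 + 1 / M) ^ 2 ≤ 1 + 3 / M := by
      have h4 : 1 / M ≤ 1 := by rw [div_le_one hM0]; linarith
      have h5 : 0 < 1 / M := by positivity
      have h6 : 3 / M = 3 * (1 / M) := by ring
      rw [h6]
      nlinarith
    have h4 : l' ^ 2 ≤ l ^ 2 * (1 + 3 / M) := by
      calc l' ^ 2 ≤ (l * (1 + 1 / M)) ^ 2 := h2
        _ = l ^ 2 * (1 + 1 / M) ^ 2 := by ring
        _ ≤ _ := mul_le_mul_of_nonneg_left h3 (by positivity)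
    have h5 : (1 + 3 / M) * ((M + 1) / l' ^ 2) * l ^ 2 = (M + 1) * ((l ^ 2 * (1 + 3 / M)) / l' ^ 2) := by ring
    rw [h5]
    have h6 : 1 ≤ (l ^ 2 * (1 + 3 / M)) / l' ^ 2 := by
      rw [one_le_div (by positivity)]
      exact h4
    nlinarith
  have hlo : f' ≤ (1 + 1 / M) * f := by
    rw [hf, hf', div_le_iff₀ (by positivity)]
    have h2 : l ^ 2 ≤ l' ^ 2 := pow_le_pow_left₀ hl0.le hlog1 2
    have h5 : (1 + 1 / M) * (M / l ^ 2) * l' ^ 2 = (M + 1) * (l' ^ 2 / l ^ 2) := by field_simp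
    rw [h5]
    have h6 : 1 ≤ l' ^ 2 / l ^ 2 := by
      rw [one_le_div (by positivity)]
      exact h2
    nlinarith
  have hs : 3 / M ≤ e / 4 := by
    rw [div_le_div_iff₀ hM0 (by norm_num)]
    linarith
  have hs2 : 1 / M ≤ e / 4 := by
    rw [div_le_div_iff₀ hM0 (by norm_num)]
    linarith
  rw [← hf] at hc
  rw [← hf']
  have hdf : |f - f'| ≤ e / 4 * f' + e / 4 * f := by
    rw [abs_le]
    have h1 : (1 + 3 / M) * f' ≤ (1 + e / 4) * f' := mul_le_mul_of_nonneg_right (by linarith) hf'0.le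
    have h2 : (1 + 1 / M) * f ≤ (1 + e / 4) * f := mul_le_mul_of_nonneg_right (by linarith) hf0.le
    have h3 : 0 ≤ e / 4 * f := by positivity
    have h4 : 0 ≤ e / 4 * f' := by positivity
    constructor <;> linarith
  have hff : f ≤ (1 + e / 4) * f' := hup.trans (mul_le_mul_of_nonneg_right (by linarith) hf'0.le)
  have key : |c - G * f'| ≤ e / 4 * (G * f) + G * (e / 4 * f' + e / 4 * f) := by
    calc |c - G * f'| = |(c - G * f) + G * (f - f')| := by congr 1; ring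
      _ ≤ |c - G * f| + |G * (f - f')| := abs_add_le _ _
      _ ≤ _ := by
          rw [abs_mul, abs_of_pos hG]
          exact add_le_add hc (mul_le_mul_of_nonneg_left hdf hG.le)
  refine key.trans ?_
  have h1 : G * f ≤ G * ((1 + e / 4) * f') := mul_le_mul_of_nonneg_left hff hG.le
  have h2 : 0 < G * f' := mul_pos hG hf'0
  have h3 : G * ((1 + e / 4) * f') ≤ 5 / 4 * (G * f') := by nlinarith
  calc e / 4 * (G * f) + G * (e / 4 * f' + e / 4 * f) = e / 2 * (G * f) + e / 4 * (G * f') := by ring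
    _ ≤ e / 2 * (5 / 4 * (G * f')) + e / 4 * (G * f') := by
        have := mul_le_mul_of_nonneg_left (h1.trans h3) (show 0 ≤ e / 2 by linarith)
        linarith
    _ = 7 / 8 * e * (G * f') := by ring
    _ ≤ ε * (G * f') := by
        apply mul_le_mul_of_nonneg_right _ h2.le
        linarith

/-- The theorem for a family of even integers, counted with multiplicities. -/
theorem family (b m : ℕ) (hb : 2 ≤ b) (hm : 1 ≤ m) (ε ρ θ : ℝ) (hε : 0 < ε) (hρ : 0 < ρ) (hθ : 0 < θ) :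
    ∃ K X₀ : ℕ, ∀ X : ℕ, X₀ ≤ X → ∀ (I : Type) (T : Finset I) (w : I → ℕ), (∀ j ∈ T, 2 ∣ w j ∧ w j ≤ X ∧ X ≤ m * w j) →
      ∃ S : Finset ℕ, S.card ≤ K ∧ ∑ ν ∈ S, (b : ℝ) ^ ν ≤ θ * X ∧
        ∃ E ⊆ T, (E.card : ℝ) ≤ ρ * T.card ∧ ∀ j ∈ T, j ∉ E → 2 ∣ w j + ∑ ν ∈ S, b ^ ν ∧ Holds ε (w j + ∑ ν ∈ S, b ^ ν) := by
  obtain ⟨K, X₀, hmain⟩ := Pool.Agent.Y820.LF.con1u b hb 1 le_rfl 1 1 (4 * m) le_rfl (by omega) (min ε 1 / 4) ρ (min θ 1 / 2)
    (by have := lt_min hε one_pos; linarith) hρ (by have := lt_min hθ one_pos; linarith) (by have := min_le_right θ 1; linarith)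
  obtain ⟨n0, hn3, hn0⟩ := shift_one ε hε
  refine ⟨K, X₀ + m * (n0 + 4), fun X hX I T w hT => ?_⟩
  have hmn : m * (n0 + 4) ≤ X := by omega
  have hX1 : 1 ≤ X := le_trans (by nlinarith) hmn
  have hX0 : (0 : ℝ) < X := by exact_mod_cast (by omega : 0 < X)
  obtain ⟨S, hS1, hS2, E, hET, hEc, hE⟩ := hmain (2 * X) (by omega) (fun _ => 1) (fun _ => Or.inl rfl) I T (fun _ _ => -1)
    (fun j _ => (w j : ℤ)) (fun _ _ _ => ⟨by norm_num, by norm_num⟩) (fun j hn _ => by
      have h1 := (hT j hn).2.1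
      rw [abs_of_nonneg (by positivity)]
      push_cast
      have : (w j : ℤ) ≤ X := by exact_mod_cast h1
      linarith)
  have hsz : ∑ ν ∈ S 0, (b : ℝ) ^ ν ≤ min θ 1 * X := by
    refine (hS2 0).trans (le_of_eq ?_)
    push_cast
    ring
  refine ⟨S 0, hS1 0, hsz.trans (mul_le_mul_of_nonneg_right (min_le_left _ _) hX0.le), E, hET, hEc, fun j hn hnE => ?_⟩
  obtain ⟨h2n, hnX, hXn⟩ := hT j hn
  obtain ⟨a, ha⟩ : ∃ a, a = w j + ∑ ν ∈ S 0, b ^ ν := ⟨_, rfl⟩
  rw [← ha]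
  obtain ⟨hadm, G, hG0, hG1, hG2⟩ := hE j hn hnE (fun _ => (a : ℤ)) (fun i => by
    have : i = 0 := Subsingleton.elim _ _
    rw [this, ha]
    push_cast
    ring) ((adm_iff (w j)).2 h2n)
  have h2a : 2 ∣ a := (adm_iff a).1 hadm
  have hnb : n0 + 4 ≤ w j := by
    by_contra hcon
    push Not at hcon
    have : m * w j < m * (n0 + 4) := Nat.mul_lt_mul_of_pos_left hcon hm
    omega
  have hna : w j ≤ a := by rw [ha]; exact Nat.le_add_right _ _
  have haX : a ≤ 2 * X := by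
    have h1 : ((∑ ν ∈ S 0, b ^ ν : ℕ) : ℝ) ≤ X := by
      push_cast
      refine hsz.trans ?_
      have := mul_le_mul_of_nonneg_right (min_le_right θ 1) hX0.le
      rwa [one_mul] at this
    have h2 : ∑ ν ∈ S 0, b ^ ν ≤ X := by exact_mod_cast h1
    omega
  have hG : G = sing a := tendsto_nhds_unique hG1 (sing_lim a (by omega) h2a)
  have h1 := hG2 (a - 1) (by omega) (by
    have e1 : m * w j ≤ m * a := Nat.mul_le_mul_left _ hna
    have e2 : 4 * m * (a - 1) = 4 * (m * a) - 4 * m := by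
      rw [Nat.mul_sub, mul_one, mul_assoc]
    have e3 : 4 * m ≤ m * a := by
      calc 4 * m = m * 4 := by ring
        _ ≤ m * a := Nat.mul_le_mul_left _ (by omega)
    omega) (by
    intro i
    refine Fin.cases ?_ (fun i => ?_) i
    · rw [Pool.Agent.Y820.LF.C1_zero, Pool.Agent.Y820.LF.H1_zero]
      constructor <;> omega
    · rw [Pool.Agent.Y820.LF.C1_succ, Pool.Agent.Y820.LF.H1_succ]
      constructor <;> omega)
  rw [count_eq a (by omega)] at h1
  refine ⟨h2a, holds_of ε hε a (by omega) h2a ?_⟩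
  have h3 := hn0 a (by omega) (g a) G hG0 h1
  unfold HL
  rw [← hG]
  exact h3

/-- The even multiples `n` of `q` with `x / 2 < n ≤ x`. -/
noncomputable def evenMultiples (x : ℝ) (q : ℕ) : Finset ℕ :=
  (Icc 1 ⌊x⌋₊).filter (fun n => q ∣ n ∧ 2 ∣ n ∧ x / 2 < n)

open Classical in
/-- The number of the even multiples `n` of `q` in `(x / 2, x]` for which `n + d` is odd or `Holds ε (n + d)` fails. -/
noncomputable def exceptions (ε x : ℝ) (q d : ℕ) : ℕ :=
  ((evenMultiples x q).filter (fun n => ¬ (2 ∣ n + d ∧ Holds ε (n + d)))).card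

lemma card_le (x : ℝ) (q : ℕ) (hq : 1 ≤ q) (hqx : (q : ℝ) ≤ x / 4) :
    ((evenMultiples x q).card : ℝ) ≤ 6 * (x / (8 * q)) := by
  have hq0 : (0 : ℝ) < q := by exact_mod_cast hq
  have hx0 : 0 < x := by linarith
  have h1 : (evenMultiples x q).card ≤ (Ioc ⌊x / (2 * q)⌋₊ ⌊x / q⌋₊).card := by
    apply card_le_card_of_injOn (fun n => n / q)
    · intro n hn
      rw [mem_coe] at hn
      unfold evenMultiples at hn
      rw [mem_filter, mem_Icc] at hn
      obtain ⟨⟨hn1, hn2⟩, ⟨k, hk⟩, _, hn3⟩ := hn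
      have hnk : n / q = k := by rw [hk, Nat.mul_div_cancel_left _ hq]
      rw [mem_coe, mem_Ioc]
      show ⌊x / (2 * q)⌋₊ < n / q ∧ n / q ≤ ⌊x / q⌋₊
      rw [hnk]
      have hnr : (n : ℝ) = q * k := by rw [hk]; push_cast; ring
      have hnx : (n : ℝ) ≤ x := (Nat.le_floor_iff hx0.le).1 hn2
      constructor
      · rw [Nat.floor_lt (by positivity), div_lt_iff₀ (by positivity)]
        nlinarith
      · rw [Nat.le_floor_iff (by positivity), le_div_iff₀ hq0]
        nlinarith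
    · intro n hn n' hn' h
      rw [mem_coe] at hn hn'
      unfold evenMultiples at hn hn'
      rw [mem_filter] at hn hn'
      obtain ⟨k, hk⟩ := hn.2.1
      obtain ⟨k', hk'⟩ := hn'.2.1
      have h : n / q = n' / q := h
      rw [hk, hk', Nat.mul_div_cancel_left _ hq, Nat.mul_div_cancel_left _ hq] at h
      rw [hk, hk', h]
  have h2 : ((Ioc ⌊x / (2 * q)⌋₊ ⌊x / q⌋₊).card : ℝ) ≤ x / q - x / (2 * q) + 1 := by
    rw [Nat.card_Ioc]
    have h3 : x / (2 * q) < ⌊x / (2 * q)⌋₊ + 1 := Nat.lt_floor_add_one _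
    have h4 : (⌊x / q⌋₊ : ℝ) ≤ x / q := Nat.floor_le (by positivity)
    have h5 : ⌊x / (2 * q)⌋₊ ≤ ⌊x / q⌋₊ := by
      apply Nat.floor_le_floor
      apply div_le_div_of_nonneg_left hx0.le hq0
      linarith
    rw [Nat.cast_sub h5]
    linarith
  have h3 : (1 : ℝ) ≤ x / (4 * q) := by
    rw [le_div_iff₀ (by positivity)]
    linarith
  have e1 : x / q = 8 * (x / (8 * q)) := by field_simp
  have e2 : x / (2 * q) = 4 * (x / (8 * q)) := by
    field_simp
    ring
  have e3 : x / (4 * q) = 2 * (x / (8 * q)) := by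
    field_simp
    ring
  have h4 : ((evenMultiples x q).card : ℝ) ≤ ((Ioc ⌊x / (2 * q)⌋₊ ⌊x / q⌋₊).card : ℝ) := by exact_mod_cast h1
  have h5 := h4.trans h2
  rw [e3] at h3
  linarith

/-- For all `b ≥ 2` and `ε, ρ, θ > 0` there are `K` and `X₀` with the following property. Let `x ≥ X₀` be a real number and
let `Q` be an ARBITRARY finite set of integers `q` with `1 ≤ q ≤ x / 4`. There is a set `S` of at most `K` exponents, with
`d = ∑_{ν ∈ S} b ^ ν ≤ θ x`, such that for all but at most `ρ |Q|` of the `q` in `Q` (in particular for all of them if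
`ρ |Q| < 1`, for instance if `Q` consists of one given integer and `ρ < 1`) the following holds: for all but at most
`ρ x / (8 q)` of the even multiples `n` of `q` in `(x / 2, x]` (in particular without exceptions if `q > ρ x / 8`) the
number of the representations of `n + d` as a sum of two primes agrees with the prediction of Hardy and Littlewood up to a
relative error of `ε`, and it lies between `(1 - ε) C₂` and `1 + ε` times `(n + d)² / (φ(n + d) log² (n + d))`. -/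
theorem result (b : ℕ) (hb : 2 ≤ b) (ε ρ θ : ℝ) (hε : 0 < ε) (hρ : 0 < ρ) (hθ : 0 < θ) :
    ∃ K X₀ : ℕ, ∀ x : ℝ, (X₀ : ℝ) ≤ x → ∀ Q : Finset ℕ, (∀ q ∈ Q, 1 ≤ q ∧ (q : ℝ) ≤ x / 4) →
      ∃ S : Finset ℕ, S.card ≤ K ∧ ∑ ν ∈ S, (b : ℝ) ^ ν ≤ θ * x ∧
        ∃ B ⊆ Q, (B.card : ℝ) ≤ ρ * Q.card ∧
          ∀ q ∈ Q, q ∉ B → (exceptions ε x q (∑ ν ∈ S, b ^ ν) : ℝ) ≤ ρ * (x / (8 * q)) := by
  classical
  obtain ⟨K, X₀, hmain⟩ := family b 4 hb (by norm_num) ε (ρ * (ρ / 6)) θ hε (by positivity) hθ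
  refine ⟨K, X₀ + 8, fun x hx Q hQ => ?_⟩
  have hx8 : (8 : ℝ) ≤ x := by
    push_cast at hx
    have : (0 : ℝ) ≤ X₀ := Nat.cast_nonneg _
    linarith
  have hx0 : 0 < x := by linarith
  obtain ⟨X, hX⟩ : ∃ X, X = ⌊x⌋₊ := ⟨_, rfl⟩
  have hXx : (X : ℝ) ≤ x := by rw [hX]; exact Nat.floor_le hx0.le
  have hXx' : x < X + 1 := by rw [hX]; exact Nat.lt_floor_add_one _
  have hX0 : X₀ ≤ X := by
    rw [hX]
    apply Nat.le_floor
    push_cast at hx
    linarith
  -- the weights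
  obtain ⟨t, ht⟩ : ∃ t : ℕ → ℕ, t = fun q => max 1 (evenMultiples x q).card := ⟨_, rfl⟩
  have ht1 : ∀ q, 1 ≤ t q := fun q => by rw [ht]; exact le_max_left _ _
  have ht2 : ∀ q, (evenMultiples x q).card ≤ t q := fun q => by rw [ht]; exact le_max_right _ _
  obtain ⟨P, hP⟩ : ∃ P, P = ∏ q ∈ Q, t q := ⟨_, rfl⟩
  have hP0 : 0 < P := by
    rw [hP]
    exact prod_pos fun q _ => ht1 q
  have hdvd : ∀ q ∈ Q, t q * (P / t q) = P := fun q hq => Nat.mul_div_cancel' (by rw [hP]; exact dvd_prod_of_mem t hq)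
  obtain ⟨T, hT⟩ : ∃ T : Finset (Σ _ : ℕ, ℕ × ℕ), T = Q.sigma (fun q => (evenMultiples x q) ×ˢ (range (P / t q))) := ⟨_, rfl⟩
  have hTc : T.card ≤ Q.card * P := by
    rw [hT, card_sigma]
    calc ∑ q ∈ Q, ((evenMultiples x q) ×ˢ (range (P / t q))).card ≤ ∑ q ∈ Q, P := by
          apply sum_le_sum
          intro q hq
          rw [card_product, card_range]
          calc (evenMultiples x q).card * (P / t q) ≤ t q * (P / t q) := Nat.mul_le_mul_right _ (ht2 q)
            _ = P := hdvd q hq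
      _ = Q.card * P := by rw [sum_const, smul_eq_mul]
  obtain ⟨S, hS1, hS2, E, hET, hEc, hE⟩ := hmain X hX0 (Σ _ : ℕ, ℕ × ℕ) T (fun j => j.2.1) (fun j hj => by
    rw [hT, mem_sigma, mem_product] at hj
    have h1 := hj.2.1
    unfold evenMultiples at h1
    rw [mem_filter, mem_Icc] at h1
    refine ⟨h1.2.2.1, by rw [hX]; exact h1.1.2, ?_⟩
    have h2 : (X : ℝ) < 2 * (j.2.1 : ℝ) := by linarith [h1.2.2.2]
    have h3 : X < 2 * j.2.1 := by exact_mod_cast h2
    omega)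
  refine ⟨S, hS1, hS2.trans (mul_le_mul_of_nonneg_left hXx hθ.le), Q.filter (fun q => ρ * (x / (8 * q)) < (exceptions ε x q (∑ ν ∈ S, b ^ ν) : ℝ)),
    filter_subset _ _, ?_, fun q hq hqB => ?_⟩
  · -- Markov
    obtain ⟨B, hB⟩ : ∃ B, B = Q.filter (fun q => ρ * (x / (8 * q)) < (exceptions ε x q (∑ ν ∈ S, b ^ ν) : ℝ)) := ⟨_, rfl⟩
    rw [← hB]
    have hBQ : ∀ q ∈ B, q ∈ Q ∧ ρ * (x / (8 * q)) < (exceptions ε x q (∑ ν ∈ S, b ^ ν) : ℝ) := fun q hq => by
      rw [hB, mem_filter] at hq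
      exact hq
    have hsum : ∑ q ∈ B, exceptions ε x q (∑ ν ∈ S, b ^ ν) * (P / t q) ≤ E.card := by
      have h1 : (B.sigma (fun q => ((evenMultiples x q).filter (fun n => ¬ (2 ∣ n + (∑ ν ∈ S, b ^ ν) ∧ Holds ε (n + (∑ ν ∈ S, b ^ ν))))) ×ˢ
          (range (P / t q)))) ⊆ E := by
        intro j hj
        rw [mem_sigma, mem_product, mem_filter] at hj
        by_contra hcon
        have hjT : j ∈ T := by
          rw [hT, mem_sigma, mem_product]
          exact ⟨(hBQ _ hj.1).1, hj.2.1.1, hj.2.2⟩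
        exact hj.2.1.2 (hE j hjT hcon)
      have h2 := card_le_card h1
      rw [card_sigma] at h2
      refine le_trans (le_of_eq ?_) h2
      apply sum_congr rfl
      intro q _
      rw [card_product, card_range]
      unfold exceptions
      congr!
    have hlow : ∀ q ∈ B, ρ / 6 * (P : ℝ) ≤ ((exceptions ε x q (∑ ν ∈ S, b ^ ν) * (P / t q) : ℕ) : ℝ) := by
      intro q hq
      obtain ⟨h1, h2⟩ := hBQ q hq
      obtain ⟨h3, h4⟩ := hQ q h1
      have hq0 : (0 : ℝ) < q := by exact_mod_cast h3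
      have h5 := card_le x q h3 h4
      have h6 : (t q : ℝ) ≤ 6 * (x / (8 * q)) := by
        rw [ht]
        show ((max 1 (evenMultiples x q).card : ℕ) : ℝ) ≤ _
        rw [Nat.cast_max]
        apply max_le _ h5
        rw [Nat.cast_one]
        have h7 : (1 : ℝ) ≤ x / (4 * q) := by
          rw [le_div_iff₀ (by positivity)]
          linarith
        have e3 : x / (4 * q) = 2 * (x / (8 * q)) := by
          field_simp
          ring
        have h8 : 0 < x / (8 * q) := by positivity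
        linarith
      have h7 : ρ / 6 * (t q : ℝ) ≤ (exceptions ε x q (∑ ν ∈ S, b ^ ν) : ℝ) := by
        have := mul_le_mul_of_nonneg_left h6 (show (0 : ℝ) ≤ ρ / 6 by positivity)
        linarith
      have h8 : (P : ℝ) = (t q : ℝ) * ((P / t q : ℕ) : ℝ) := by
        have := hdvd q h1
        exact_mod_cast this.symm
      rw [h8]
      push_cast
      rw [← mul_assoc]
      exact mul_le_mul_of_nonneg_right h7 (by positivity)
    have h1 : (B.card : ℝ) * (ρ / 6 * P) ≤ E.card := by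
      calc (B.card : ℝ) * (ρ / 6 * P) = ∑ q ∈ B, ρ / 6 * (P : ℝ) := by rw [sum_const, nsmul_eq_mul]
        _ ≤ ∑ q ∈ B, ((exceptions ε x q (∑ ν ∈ S, b ^ ν) * (P / t q) : ℕ) : ℝ) := sum_le_sum hlow
        _ ≤ E.card := by exact_mod_cast hsum
    have h2 : (E.card : ℝ) ≤ ρ * (ρ / 6) * (Q.card * P) := by
      refine hEc.trans (mul_le_mul_of_nonneg_left ?_ (by positivity))
      exact_mod_cast hTc
    have hPr : (0 : ℝ) < P := by exact_mod_cast hP0
    have h3 : (B.card : ℝ) * (ρ / 6 * P) ≤ (ρ * Q.card) * (ρ / 6 * P) := by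
      refine h1.trans (h2.trans (le_of_eq ?_))
      ring
    exact le_of_mul_le_mul_right h3 (by positivity)
  · by_contra hcon
    push Not at hcon
    exact hqB (mem_filter.2 ⟨hq, hcon⟩)

end Pool.Agent.Results.MP_92f640_nt.MultiplesPlusPowers
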