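import Pool.Agent.Y879.PR.GoldC

set_option autoImplicit false

/-!
For EVERY large even `n`, without exceptions, the number of the ACTUAL primes `p ≤ n` for which `n - p` is almost
prime is asymptotically `r e ^ (-γ)` times the conjectured number `S(n)` of Goldbach representations, and at
these primes the gaps to the following almost prime representations have the Poisson law.
-/

namespace Pool.Agent.Results.MP_92f640_nt.NoExceptionsAlmostPrime

open Finset Filter
open Pool.Agent.Y879.PR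

/-- neither `m` nor `n - m` has a prime factor `p ≤ n ^ (1 / r)` -/
def Good (n r m : ℕ) : Prop :=
  ∀ p : ℕ, p.Prime → (p : ℝ) ≤ (n : ℝ) ^ (1 / (r : ℝ)) → ¬ (p : ℤ) ∣ (m : ℤ) ∧ ¬ (p : ℤ) ∣ (n : ℤ) - m

open Classical in
/-- the good PRIMES `p` in `(u, u + Y]` -/
noncomputable def Pr (n r u Y : ℕ) : Finset ℕ := (Ioc u (u + Y)).filter (fun p => p.Prime ∧ Good n r p)

open Classical in
/-- the number of the good numbers in `(p, p + T]` -/
noncomputable def Next (n r T p : ℕ) : ℕ := ((Ioc p (p + T)).filter (Good n r)).card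

/-- the density of the good numbers: the product over the primes `p ≤ n ^ (1 / r)` of `1 - 1 / p` (if `p`
divides `n`) or `1 - 2 / p` -/
noncomputable def V (n r : ℕ) : ℝ :=
  ∏ p ∈ (Icc 1 ⌊(n : ℝ) ^ (1 / (r : ℝ))⌋₊).filter Nat.Prime, (1 - ((if p ∣ n then 1 else 2 : ℕ) : ℝ) / p)

/-- the conjectured number of Goldbach representations, `C` the twin prime constant -/
noncomputable def Sn (C : ℝ) (n : ℕ) : ℝ :=
  2 * C * (∏ p ∈ n.primeFactors.filter (fun p => 2 < p), ((p : ℝ) - 1) / ((p : ℝ) - 2)) * (n / Real.log n ^ 2)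

/-- the number of the ordered Goldbach representations -/
def g (n : ℕ) : ℕ := ((range (n + 1)).filter (fun p => p.Prime ∧ (n - p).Prime)).card

open Classical in
/-- **No exceptions, with one almost prime.** Let `C` be the twin prime constant. For all `0 < δ ≤ 1`,
`0 < ε ≤ 1` and `x₀` there is `r₀` such that for every `r ≥ r₀` and EVERY large even `n` (so for all multiples of
all `q`): (1) the number of the good primes `p ≤ n` is `(1 + η) r e ^ (-γ) S(n)` with `|η| ≤ ε`; it is at least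
`g(n) - 2 n ^ (1 / r)`; (2) if `p < n` is good, `n - p` has at most `r` prime factors; (3) in every interval
`(u, u + Y]` with `Y ≥ δ n`, `u + Y ≤ n` the number of the good primes is
`(1 + η) r e ^ (-γ) (Y / n) S(n)`, `|η| ≤ ε`, and at these primes the number of the good numbers in
`(p, p + T]` has the Poisson law of mean `T V`, up to `ε`, for all `T` with `T V ≤ x₀`. -/
theorem result : ∃ C : ℝ, 0 < C ∧
    Tendsto (fun N : ℕ => ∏ p ∈ (Finset.range N).filter (fun p => p.Prime ∧ 2 < p),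
      (1 - 1 / ((p : ℝ) - 1) ^ 2)) atTop (nhds C) ∧
    ∀ δ x₀ ε : ℝ, 0 < δ → δ ≤ 1 → 0 < ε → ε ≤ 1 →
    ∃ r₀ : ℕ, ∀ r : ℕ, r₀ ≤ r → ∃ n₀ : ℕ, ∀ n : ℕ, n₀ ≤ n → Even n →
      (|((Pr n r 0 n).card : ℝ) - r * Real.exp (-Real.eulerMascheroniConstant) * Sn C n| ≤
        ε * (r * Real.exp (-Real.eulerMascheroniConstant) * Sn C n)) ∧
      ((g n : ℝ) ≤ (Pr n r 0 n).card + 2 * (n : ℝ) ^ (1 / (r : ℝ))) ∧
      (∀ m : ℕ, 0 < m → m < n → Good n r m →
        m.primeFactorsList.length ≤ r ∧ (n - m).primeFactorsList.length ≤ r) ∧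
      ∀ u Y : ℕ, δ * n ≤ Y → u + Y ≤ n →
        |((Pr n r u Y).card : ℝ) - r * Real.exp (-Real.eulerMascheroniConstant) * (Y / n * Sn C n)| ≤
          ε * (r * Real.exp (-Real.eulerMascheroniConstant) * (Y / n * Sn C n)) ∧
        ∀ T : ℕ, T * V n r ≤ x₀ → ∀ B : Finset ℕ,
          |(((Pr n r u Y).filter (fun p => Next n r T p ∈ B)).card : ℝ) -
            (Pr n r u Y).card * ∑ j ∈ B, Real.exp (-(T * V n r)) * (T * V n r) ^ j / j.factorial| ≤
            ε * (Pr n r u Y).card := by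
  obtain ⟨S, hS0, hS⟩ := H2_lim
  refine ⟨S, hS0, ?_, ?_⟩
  · refine hS.congr ?_
    intro N
    unfold H2
    apply Finset.prod_congr rfl
    intro p hp
    simp only [Finset.mem_filter] at hp
    have h3 : (2 : ℝ) < p := by exact_mod_cast hp.2.2
    have h0 : (p : ℝ) ≠ 0 := by positivity
    have h1 : (p : ℝ) - 1 ≠ 0 := by linarith
    field_simp
    ring
  intro δ x₀ ε hδ hδ1 hε hε1
  obtain ⟨r0, hr0, hlaw⟩ := gold_full 1 δ x₀ (ε / 4) one_pos hδ hδ1 (by positivity) (by linarith)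
  refine ⟨r0, ?_⟩
  intro r hr
  have hr2 : 2 ≤ r := hr0.trans hr
  have hrr : (2 : ℝ) ≤ r := by exact_mod_cast hr2
  obtain ⟨n0, hn0⟩ := eventually_atTop.1 ((hlaw r hr).and ((GW_sing S hS0 hS r hr2 (ε / 4) (by positivity)
    (by linarith)).and (Pool.Agent.Y879.GL.level_ok r hr2)))
  refine ⟨max n0 16, ?_⟩
  intro n hn hev
  obtain ⟨h1, h2, h3⟩ := hn0 n ((le_max_left _ _).trans hn)
  have hn16 : 16 ≤ n := (le_max_right _ _).trans hn
  have hnr : (16 : ℝ) ≤ n := by exact_mod_cast hn16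
  have hn0' : (0 : ℝ) < n := by linarith
  have h2' := h2 hev
  have hlog : 0 < Real.log n := Real.log_pos (by linarith)
  have hz3 : (3 : ℝ) ≤ (n : ℝ) ^ (1 / (r : ℝ)) := by
    have h4 : ((3 : ℕ) : ℝ) ≤ (n : ℝ) ^ (1 / (r : ℝ)) := (Nat.le_floor_iff (by positivity)).1 h3.1
    exact_mod_cast h4
  obtain ⟨c, hc⟩ : ∃ c, c = (r : ℝ) * Real.exp (-Real.eulerMascheroniConstant) := ⟨_, rfl⟩
  have hc0 : 0 < c := by
    rw [hc]
    have := Real.exp_pos (-Real.eulerMascheroniConstant)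
    positivity
  rw [← hc] at h2' ⊢
  have hSF := SF_ge n
  obtain ⟨K, hK⟩ : ∃ K, K = 2 * S * c * SF n := ⟨_, rfl⟩
  have hK0 : 0 < K := by
    rw [hK]
    positivity
  rw [← hK] at h2'
  have hSn : ∀ y : ℝ, c * (y / n * Sn S n) = y / Real.log n ^ 2 * K := by
    intro y
    unfold Sn
    rw [hK]
    unfold SF
    field_simp
  have main : ∀ u Y : ℕ, δ * n ≤ Y → u + Y ≤ n →
        |((Pr n r u Y).card : ℝ) - c * (Y / n * Sn S n)| ≤ ε * (c * (Y / n * Sn S n)) ∧
        ∀ T : ℕ, T * V n r ≤ x₀ → ∀ B : Finset ℕ,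
          |(((Pr n r u Y).filter (fun p => Next n r T p ∈ B)).card : ℝ) -
            (Pr n r u Y).card * ∑ j ∈ B, Real.exp (-(T * V n r)) * (T * V n r) ^ j / j.factorial| ≤
            ε * (Pr n r u Y).card := by
    intro u Y hY huY
    have h4 := h1 hev n u Y (by rw [Real.rpow_one]) hY huY
    obtain ⟨h5, h6⟩ := h4
    constructor
    · rw [hSn]
      refine two_step _ ((Y : ℝ) / Real.log n ^ 2) (GW n r * Real.log n) K ε hε hε1 (by positivity) hK0.le ?_ h2'
      have e1 : ((Pr n r u Y).card : ℝ) - Y / Real.log n ^ 2 * (GW n r * Real.log n) =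
          (((Pr n r u Y).card : ℝ) * Real.log n - Y * GW n r) / Real.log n := by
        field_simp
      have e2 : ε / 4 * (Y / Real.log n ^ 2 * (GW n r * Real.log n)) =
          ε / 4 * (Y * GW n r) / Real.log n := by
        field_simp
      rw [e1, e2, abs_div, abs_of_pos hlog]
      exact div_le_div_of_nonneg_right h5 hlog.le
    · intro T hT B
      refine (h6 T hT B).trans ?_
      exact mul_le_mul_of_nonneg_right (by linarith) (Nat.cast_nonneg _)
  refine ⟨?_, ?_, ?_, main⟩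
  · have h4 := (main 0 n (by
      calc δ * n ≤ 1 * n := mul_le_mul_of_nonneg_right hδ1 hn0'.le
        _ = n := one_mul _) (by omega)).1
    rw [div_self hn0'.ne', one_mul] at h4
    exact h4
  · -- the Goldbach representations
    have hsub : (range (n + 1)).filter (fun p => p.Prime ∧ (n - p).Prime) ⊆
        Pr n r 0 n ∪ (Icc 1 ⌊(n : ℝ) ^ (1 / (r : ℝ))⌋₊ ∪
          (Icc 1 ⌊(n : ℝ) ^ (1 / (r : ℝ))⌋₊).image (fun p => n - p)) := by
      intro p hp
      simp only [Finset.mem_filter, Finset.mem_range] at hp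
      obtain ⟨hp1, hp2, hp3⟩ := hp
      simp only [Finset.mem_union, Finset.mem_image, Finset.mem_Icc]
      by_cases ha : (n : ℝ) ^ (1 / (r : ℝ)) < p
      · by_cases hb : (n : ℝ) ^ (1 / (r : ℝ)) < ((n - p : ℕ) : ℝ)
        · left
          unfold Pr
          rw [Finset.mem_filter, Finset.mem_Ioc]
          exact ⟨⟨hp2.pos, by omega⟩, hp2, ggood_prime n r p hp2 hp3 ha hb⟩
        · right; right
          rw [not_lt] at hb
          refine ⟨n - p, ⟨hp3.pos, Nat.le_floor hb⟩, by omega⟩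
      · right; left
        rw [not_lt] at ha
        exact ⟨hp2.pos, Nat.le_floor ha⟩
    have hcard : g n ≤ (Pr n r 0 n).card + 2 * ⌊(n : ℝ) ^ (1 / (r : ℝ))⌋₊ := by
      unfold g
      refine (Finset.card_le_card hsub).trans ((Finset.card_union_le _ _).trans ?_)
      have a1 := Finset.card_union_le (Icc 1 ⌊(n : ℝ) ^ (1 / (r : ℝ))⌋₊)
        ((Icc 1 ⌊(n : ℝ) ^ (1 / (r : ℝ))⌋₊).image (fun p => n - p))
      have a2 : ((Icc 1 ⌊(n : ℝ) ^ (1 / (r : ℝ))⌋₊).image (fun p => n - p)).card ≤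
        (Icc 1 ⌊(n : ℝ) ^ (1 / (r : ℝ))⌋₊).card := Finset.card_image_le
      rw [Nat.card_Icc, Nat.add_sub_cancel] at a1 a2
      omega
    have hfl : (⌊(n : ℝ) ^ (1 / (r : ℝ))⌋₊ : ℝ) ≤ (n : ℝ) ^ (1 / (r : ℝ)) := Nat.floor_le (by positivity)
    have hcr : (g n : ℝ) ≤ (Pr n r 0 n).card + 2 * (⌊(n : ℝ) ^ (1 / (r : ℝ))⌋₊ : ℝ) := by
      exact_mod_cast hcard
    linarith
  · intro m hm hmn hg
    exact ggood_few n r (by omega) (by omega) (by linarith) m hm hmn hg

end Pool.Agent.Results.MP_92f640_nt.NoExceptionsAlmostPrime
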