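import Pool.Agent.Y816.PD.UniB

set_option autoImplicit false

/-!
# Goldbach representations of ALL large even numbers by almost primes with restricted digits, in the order `n / log ^ 2 n`

For every large even `n` the representations `n = p + (n - p)` are considered, where `p < b ^ K ≤ n / 2` and the `i`-th
digit of `p` in base `b` belongs to an arbitrary set `A i` for all `i < K`; `K` is the integer part of `log_b (n / 2)`.
-/

namespace Pool.Agent.Results.MP_92f640_nt.RestrictedDigits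

open Finset Filter Polynomial
open Pool.Agent.Y816.PD (NA ND Alm WG TP)

/-- `p (n - p)` -/
def G (n p : ℕ) : ℤ := (p : ℤ) * ((n : ℤ) - p)

lemma adm02 (p : ℕ) (hp : p.Prime) : ∃ m : ℕ, ∀ h ∈ ({0, 2} : Finset ℕ), ¬ p ∣ m + h := by
  by_cases h3 : p = 3
  · subst h3
    refine ⟨2, fun h hh => ?_⟩
    rw [mem_insert, mem_singleton] at hh
    rcases hh with rfl | rfl <;> decide
  · refine ⟨1, fun h hh hd => ?_⟩
    rw [mem_insert, mem_singleton] at hh
    rcases hh with rfl | rfl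
    · exact hp.one_lt.ne' (Nat.dvd_one.1 hd)
    · exact h3 ((Nat.prime_dvd_prime_iff_eq hp Nat.prime_three).1 hd)

lemma cnt_le {n p : ℕ} (hn : Even n) (hp : p.Prime) :
    ((range p).filter (fun m : ℕ => (p : ℤ) ∣ G n m)).card ≤
      ((range p).filter (fun m : ℕ => (p : ℤ) ∣ TP {0, 2} 0 m)).card := by
  have hpz := Nat.prime_iff_prime_int.1 hp
  have h1 : (range p).filter (fun m : ℕ => (p : ℤ) ∣ G n m) ⊆ {0, n % p} := by
    intro m hm
    rw [mem_filter, mem_range] at hm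
    rw [mem_insert, mem_singleton]
    unfold G at hm
    rcases hpz.dvd_or_dvd hm.2 with h | h
    · left
      exact Nat.eq_zero_of_dvd_of_lt (Int.natCast_dvd_natCast.1 h) hm.1
    · right
      have h2 : (n : ℤ) ≡ m [ZMOD p] := by
        apply Int.modEq_iff_dvd.2
        have : (m : ℤ) - n = -(n - m) := by ring
        rw [this]
        exact dvd_neg.2 h
      have h3 : n ≡ m [MOD p] := (Int.natCast_modEq_iff).1 h2
      rw [Nat.ModEq] at h3
      rw [h3, Nat.mod_eq_of_lt hm.1]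
  by_cases hp2 : p = 2
  · subst hp2
    have h2 : n % 2 = 0 := Nat.even_iff.1 hn
    rw [h2] at h1
    have h3 : ({0, 0} : Finset ℕ).card = 1 := by simp
    refine (card_le_card h1).trans ?_
    rw [h3]
    apply card_pos.2
    refine ⟨0, ?_⟩
    rw [mem_filter, mem_range, Pool.Agent.Y816.PD.TP_dvd _ _ _ Nat.prime_two]
    exact ⟨by norm_num, 0, by simp, by norm_num⟩
  · have h3 : 3 ≤ p := by
      have := hp.two_le
      omega
    refine (card_le_card h1).trans (card_le_two.trans ?_)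
    have h4 : ({0, p - 2} : Finset ℕ) ⊆ (range p).filter (fun m : ℕ => (p : ℤ) ∣ TP {0, 2} 0 m) := by
      intro m hm
      rw [mem_insert, mem_singleton] at hm
      rw [mem_filter, mem_range, Pool.Agent.Y816.PD.TP_dvd _ _ _ hp]
      rcases hm with rfl | rfl
      · exact ⟨by omega, 0, by simp, by simp⟩
      · refine ⟨by omega, 2, by simp, ?_⟩
        have : 0 + (p - 2) + 2 = p := by omega
        rw [this]
    have h5 : ({0, p - 2} : Finset ℕ).card = 2 := card_pair (by omega)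
    exact h5.symm.le.trans (card_le_card h4)

lemma W_le {n : ℕ} (hn : Even n) (x : ℕ) : WG (TP {0, 2} 0) x ≤ WG (G n) x := by
  classical
  unfold WG
  apply Finset.prod_le_prod
  · intro p hp
    rw [mem_filter] at hp
    have hp0 : (0 : ℝ) < p := by exact_mod_cast hp.2.pos
    rw [sub_nonneg, div_le_one hp0]
    have h1 := card_filter_le (range p) (fun m : ℕ => (p : ℤ) ∣ TP {0, 2} 0 m)
    rw [card_range] at h1
    refine le_trans (le_of_eq ?_) (Nat.cast_le.2 h1)
    congr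
  · intro p hp
    rw [mem_filter] at hp
    have hp0 : (0 : ℝ) < p := by exact_mod_cast hp.2.pos
    have h1 : (((range p).filter (fun m : ℕ => (p : ℤ) ∣ G n m)).card : ℝ) ≤
        ((range p).filter (fun m : ℕ => (p : ℤ) ∣ TP {0, 2} 0 m)).card := Nat.cast_le.2 (cnt_le hn hp.2)
    apply sub_le_sub_left
    apply div_le_div_of_nonneg_right _ hp0.le
    convert h1

/-- **Goldbach representations of all large even numbers by almost primes with restricted digits.** -/
theorem result :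
    ∃ c : ℝ, 0 < c ∧ ∃ r₀ : ℕ, 2 ≤ r₀ ∧ ∀ r : ℕ, r₀ ≤ r → ∀ b : ℕ, 2 ≤ b → ∃ κ C : ℝ, 0 < κ ∧ 0 < C ∧
      ∀ᶠ n : ℕ in atTop, Even n → ∀ K : ℕ, K = Nat.log b (n / 2) →
        ∀ A : ℕ → Finset ℕ, (∀ i < K, A i ⊆ range b) → (b : ℝ) ^ K ≤ Real.exp (c * K) * NA K A →
        ((∃ d ∈ A 0, (G n d).natAbs.Coprime b) → (∃ d ∈ A (K - 1), d ≠ 0) →
          κ * NA K A / (K : ℝ) ^ 2 ≤ ND b K A {p | (1 < p ∧ p < n - p) ∧ p ∈ Alm (G n) r (b ^ K)}) ∧
        (ND b K A {p | p.Prime ∧ (n - p).Prime} : ℝ) ≤ C * NA K A * WG (G n) (b ^ K) := by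
  obtain ⟨c, hc, r₀, hr₀, h⟩ := Pool.Agent.Y816.PD.uni_top 2 6 (by norm_num)
  refine ⟨c, hc, r₀, hr₀, fun r hr b hb => ?_⟩
  have h2r : 2 ≤ r := hr₀.trans hr
  obtain ⟨κ, C₁, hκ, hC, h1⟩ := h r hr b hb
  obtain ⟨v, Cv, hv, hCv, hW⟩ := Pool.Agent.Y816.PD.WG_bounds {0, 2} adm02 2 (by decide) b hb
  refine ⟨κ * v, C₁, by positivity, hC, ?_⟩
  obtain ⟨K0, hK0⟩ := eventually_atTop.1 (h1.and hW)
  filter_upwards [eventually_ge_atTop (2 * b ^ (K0 + 4))] with n hn heven K hK A hA hprod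
  have hb0 : 0 < b := by omega
  have hy : b ^ (K0 + 4) ≤ n / 2 := by omega
  have hpos : 0 < b ^ (K0 + 4) := by positivity
  have hKK : K0 + 4 ≤ K := by
    rw [hK]
    exact Nat.le_log_of_pow_le (by omega) hy
  have hb1 : b ^ K ≤ n / 2 := by
    rw [hK]
    exact Nat.pow_log_le_self _ (by omega)
  have hb2 : n / 2 < b ^ (K + 1) := by
    rw [hK]
    exact Nat.lt_pow_succ_log_self (by omega) _
  have hnb : n ≤ b ^ (2 * K) := by
    have e1 : n ≤ 2 * b ^ (K + 1) := by omega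
    calc n ≤ 2 * b ^ (K + 1) := e1
      _ ≤ b * b ^ (K + 1) := Nat.mul_le_mul_right _ hb
      _ = b ^ (K + 2) := by ring
      _ ≤ b ^ (2 * K) := Nat.pow_le_pow_right hb0 (by omega)
  have hcast : ∀ p, p < b ^ K → G n p = ((p * (n - p) : ℕ) : ℤ) := by
    intro p hp
    unfold G
    push_cast [Nat.cast_sub (by omega : p ≤ n)]
    ring
  obtain ⟨hK1, hK2⟩ := hK0 K (by omega)
  have hpoly : ∃ P : ℤ[X], P.natDegree ≤ 2 ∧ ∀ k : ℕ, P.eval (k : ℤ) = G n k := by
    refine ⟨X * (C (n : ℤ) - X), ?_, fun k => ?_⟩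
    · compute_degree
    · unfold G
      simp only [eval_mul, eval_sub, eval_X, eval_C]
  have hadm : ∀ p : ℕ, p.Prime → ∃ k : ℕ, ¬ (p : ℤ) ∣ G n k := by
    intro p hp
    obtain ⟨j, hj⟩ := Pool.Agent.Y816.PD.adm_gold (N := (n : ℤ)) (by exact_mod_cast heven) 0 p hp
    refine ⟨j, ?_⟩
    unfold G
    simpa using hj
  have hsize : ∀ k : ℕ, k < b ^ K → (G n k).natAbs ≤ b ^ (6 * K) := by
    intro k hk
    rw [hcast k hk, Int.natAbs_natCast]
    calc k * (n - k) ≤ b ^ K * b ^ (2 * K) := Nat.mul_le_mul hk.le (by omega)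
      _ = b ^ (3 * K) := by rw [← pow_add]; congr 1; ring
      _ ≤ b ^ (6 * K) := Nat.pow_le_pow_right hb0 (by omega)
  obtain ⟨h2, h3⟩ := hK1 (G n) hpoly hadm hsize A hA hprod
  have hNA := Pool.Agent.Y816.PD.NA_nonneg K A
  have hbig : 1 < b ^ (K - 1) := Nat.one_lt_pow (by omega) (by omega)
  constructor
  · intro hd htop
    calc κ * v * NA K A / (K : ℝ) ^ 2 = κ * NA K A * (v / (K : ℝ) ^ 2) := by ring
      _ ≤ κ * NA K A * WG (G n) (b ^ K) :=
          mul_le_mul_of_nonneg_left ((hK2 0).1.trans (W_le heven _)) (by positivity)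
      _ ≤ _ := h2 hd htop
      _ ≤ _ := by
          apply Nat.cast_le.2
          apply Pool.Agent.Y816.PD.ND_mono'
          intro p hp hpS
          exact ⟨⟨lt_of_lt_of_le hbig hpS.1, by omega⟩, hpS.2⟩
  · refine le_trans (Nat.cast_le.2 ?_) h3
    apply Pool.Agent.Y816.PD.ND_mono'
    rintro p hp ⟨g1, g2⟩ l hl hd
    rw [hcast p hp, Int.natCast_dvd_natCast] at hd
    refine Pool.Agent.Y816.PD.lt_pow_of_le hl ?_ h2r
    rcases (Nat.Prime.dvd_mul hl).1 hd with h4 | h4
    · exact ((Nat.prime_dvd_prime_iff_eq hl g1).1 h4).ge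
    · rw [(Nat.prime_dvd_prime_iff_eq hl g2).1 h4]
      omega

end Pool.Agent.Results.MP_92f640_nt.RestrictedDigits
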